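import Mathlib
import Pool.Agent.Y272.GA.Stm

/-!
# Project GA (helper272): passage near the critical point along a slow curve of polynomials

Job 7398. Adaptation of `Pool.Agent.Y220.CA.BI`.
-/

set_option autoImplicit false

open Set Filter Metric MeasureTheory

namespace Pool.Agent.Y43.GA

open Pool.Agent.TH279.MD Pool.Agent.Y298.SH Pool.Agent.Y298.SH.CD Pool.Agent.Y272.GA
open Pool.Agent.Y298.SH.CE (geom_part)

/-! ### Basic facts -/

theorem ee_sum (d : ℕ) (c : ℂ) (g : Fin (d + 1) → ℂ) : ∑ i : Fin (d + 1), ee d c i * g i = c * g 0 := by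
  unfold ee
  rw [Finset.sum_eq_single (0 : Fin (d + 1))]
  · rw [Pi.single_eq_same]
  · intro i _ hi
    rw [Pi.single_eq_of_ne hi, zero_mul]
  · intro h
    exact absurd (Finset.mem_univ _) h

theorem Kd_ge (d : ℕ) (hd : 2 ≤ d) : ((d : ℝ) + 1) * d ≤ Kd d ∧ (d : ℝ) + 1 ≤ Kd d := by
  have hdR : (2 : ℝ) ≤ d := by exact_mod_cast hd
  have h4 : (1 : ℝ) ≤ 4 ^ d := one_le_pow₀ (by norm_num)
  have h0 : (0 : ℝ) ≤ ((d : ℝ) + 1) ^ 3 := by positivity
  have h1 : ((d : ℝ) + 1) ^ 3 ≤ Kd d := by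
    unfold Kd
    exact le_mul_of_one_le_right h0 h4
  have h2 : ((d : ℝ) + 1) ≤ ((d : ℝ) + 1) ^ 3 := le_self_pow₀ (by linarith) (by norm_num)
  constructor
  · nlinarith
  · linarith

/-- the perturbation -/
theorem FF_sub (d : ℕ) (hd : 2 ≤ d) (a : Fin (d + 1) → ℂ) (c z : ℂ) (hz : ‖z‖ ≤ 1) :
    ‖FF d a z - (z ^ d + c)‖ ≤ Kd d * ‖a - ee d c‖ := by
  have e : FF d a z - (z ^ d + c) = ∑ i : Fin (d + 1), (a i - ee d c i) * z ^ (i : ℕ) := by
    have h1 := ee_sum d c (fun i => z ^ (i : ℕ))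
    simp only [sub_mul]
    rw [Finset.sum_sub_distrib, h1]
    unfold FF
    simp
  rw [e]
  calc ‖∑ i : Fin (d + 1), (a i - ee d c i) * z ^ (i : ℕ)‖
      ≤ ∑ i : Fin (d + 1), ‖(a i - ee d c i) * z ^ (i : ℕ)‖ := norm_sum_le _ _
    _ ≤ ∑ i : Fin (d + 1), ‖a - ee d c‖ := by
        apply Finset.sum_le_sum
        intro i _
        rw [norm_mul, norm_pow]
        calc ‖a i - ee d c i‖ * ‖z‖ ^ (i : ℕ) ≤ ‖a i - ee d c i‖ * 1 := by
              gcongr
              exact pow_le_one₀ (norm_nonneg _) hz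
          _ = ‖(a - ee d c) i‖ := by rw [mul_one, Pi.sub_apply]
          _ ≤ _ := norm_le_pi_norm _ i
    _ = ((d : ℝ) + 1) * ‖a - ee d c‖ := by
        rw [Finset.sum_const, Finset.card_univ, Fintype.card_fin, nsmul_eq_mul]
        push_cast
        ring
    _ ≤ Kd d * ‖a - ee d c‖ := mul_le_mul_of_nonneg_right (Kd_ge d hd).2 (norm_nonneg _)

theorem hasDeriv_FF (d : ℕ) (a : Fin (d + 1) → ℂ) (z : ℂ) :
    HasDerivAt (FF d a) (d * z ^ (d - 1) + ∑ i : Fin (d + 1), a i * ((i : ℕ) * z ^ ((i : ℕ) - 1))) z := by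
  unfold FF
  exact (hasDerivAt_pow d z).add (HasDerivAt.fun_sum fun i _ => (hasDerivAt_pow (i : ℕ) z).const_mul (a i))

theorem diff_FF (d : ℕ) (a : Fin (d + 1) → ℂ) : Differentiable ℂ (FF d a) :=
  fun z => (hasDeriv_FF d a z).differentiableAt

theorem iter_add (d : ℕ) (a : Fin (d + 1) → ℂ) (m n : ℕ) (x : ℂ) :
    deriv ((FF d a)^[m + n]) x = deriv ((FF d a)^[m]) ((FF d a)^[n] x) * deriv ((FF d a)^[n]) x := by
  rw [Function.iterate_add]
  exact deriv_comp x ((diff_FF d a).iterate m _) ((diff_FF d a).iterate n _)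

theorem dFF_sub (d : ℕ) (hd : 2 ≤ d) (a : Fin (d + 1) → ℂ) (c z : ℂ) (hz : ‖z‖ ≤ 1) :
    ‖deriv (FF d a) z - d * z ^ (d - 1)‖ ≤ Kd d * ‖a - ee d c‖ := by
  have e : deriv (FF d a) z - d * z ^ (d - 1) =
      ∑ i : Fin (d + 1), (a i - ee d c i) * ((i : ℕ) * z ^ ((i : ℕ) - 1)) := by
    have h1 := ee_sum d c (fun i => ((i : ℕ) : ℂ) * z ^ ((i : ℕ) - 1))
    simp only [sub_mul]
    rw [Finset.sum_sub_distrib, h1, (hasDeriv_FF d a z).deriv]
    simp
  rw [e]
  calc ‖∑ i : Fin (d + 1), (a i - ee d c i) * ((i : ℕ) * z ^ ((i : ℕ) - 1))‖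
      ≤ ∑ i : Fin (d + 1), ‖(a i - ee d c i) * ((i : ℕ) * z ^ ((i : ℕ) - 1))‖ := norm_sum_le _ _
    _ ≤ ∑ i : Fin (d + 1), ‖a - ee d c‖ * d := by
        apply Finset.sum_le_sum
        intro i _
        rw [norm_mul, norm_mul, norm_pow, Complex.norm_natCast]
        have h1 : ‖a i - ee d c i‖ ≤ ‖a - ee d c‖ := norm_le_pi_norm (a - ee d c) i
        have h2 : ((i : ℕ) : ℝ) ≤ d := by
          have := i.2
          exact_mod_cast (by omega : (i : ℕ) ≤ d)
        have h3 : ‖z‖ ^ ((i : ℕ) - 1) ≤ 1 := pow_le_one₀ (norm_nonneg _) hz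
        calc ‖a i - ee d c i‖ * (((i : ℕ) : ℝ) * ‖z‖ ^ ((i : ℕ) - 1))
            ≤ ‖a - ee d c‖ * (d * 1) := by gcongr
          _ = _ := by ring
    _ = ((d : ℝ) + 1) * d * ‖a - ee d c‖ := by
        rw [Finset.sum_const, Finset.card_univ, Fintype.card_fin, nsmul_eq_mul]
        push_cast
        ring
    _ ≤ Kd d * ‖a - ee d c‖ := mul_le_mul_of_nonneg_right (Kd_ge d hd).1 (norm_nonneg _)

/-- The passage near the critical point along a slow curve of polynomials. -/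
theorem t (hpush : S_PUSH) : S_BI := by
  intro d C₁ lam θ B Ca hd hC1 hlam hθ hPC
  have hdR : (2 : ℝ) ≤ d := by exact_mod_cast hd
  have hB1 : 1 ≤ B := hPC.Ca1.trans hPC.CaB
  have hθ0 : 0 < θ := by linarith
  have hl0 : 0 < lam := by linarith
  have hiθ : 0 < 1 / θ := by positivity
  have hiθ1 : 1 / θ < 1 := by rw [div_lt_one hθ0]; exact hθ
  have hil : 0 < 1 / lam := by positivity
  have hil1 : 1 / lam < 1 := by rw [div_lt_one hl0]; exact hlam
  obtain ⟨Sθ, hSθ⟩ : ∃ Sθ : ℝ, Sθ = 1 / (1 - 1 / θ) := ⟨_, rfl⟩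
  obtain ⟨Sl, hSl⟩ : ∃ Sl : ℝ, Sl = 1 / (1 - 1 / lam) := ⟨_, rfl⟩
  have hSθ0 : 0 < Sθ := by
    have : 0 < 1 - 1 / θ := by linarith
    rw [hSθ]
    positivity
  have hSl0 : 0 < Sl := by
    have : 0 < 1 - 1 / lam := by linarith
    rw [hSl]
    positivity
  obtain ⟨K, hK⟩ : ∃ K : ℝ, K = 64 * d ^ 2 * θ * Sθ + 8 * C₁ * Sl := ⟨_, rfl⟩
  have hK0 : 0 < K := by rw [hK]; positivity
  obtain ⟨ε, hε⟩ : ∃ ε : ℝ, ε = min (1 / (8 * K)) (1 / (12 * d ^ 2)) := ⟨_, rfl⟩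
  have hε0 : 0 < ε := by rw [hε]; exact lt_min (by positivity) (by positivity)
  have hε1 : ε * K ≤ 1 / 8 := by
    have h1 : ε ≤ 1 / (8 * K) := by rw [hε]; exact min_le_left _ _
    calc ε * K ≤ 1 / (8 * K) * K := mul_le_mul_of_nonneg_right h1 hK0.le
      _ = 1 / 8 := by field_simp
  have hε2 : ε * (12 * d ^ 2) ≤ 1 := by
    have h1 : ε ≤ 1 / (12 * d ^ 2) := by rw [hε]; exact min_le_right _ _
    calc ε * (12 * d ^ 2) ≤ 1 / (12 * d ^ 2) * (12 * d ^ 2) := 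
          mul_le_mul_of_nonneg_right h1 (by positivity)
      _ = 1 := by field_simp
  have hd2 : (4 : ℝ) ≤ 12 * (d : ℝ) ^ 2 := by
    have h1 : (1 : ℝ) ≤ (d : ℝ) ^ 2 := one_le_pow₀ (by linarith)
    linarith
  have hε4 : ε ≤ 1 / 4 := by
    have h1 : ε * 4 ≤ ε * (12 * d ^ 2) := mul_le_mul_of_nonneg_left hd2 hε0.le
    linarith
  refine ⟨ε, hε0, by linarith, ?_⟩
  intro c₁ hc s ρ κ r k n γ w hs hs1 hρ hk hγ hslow hnear hr0 hrs hrx hx hw0 hD0 hstart hDρ hκ
  obtain ⟨a, had⟩ : ∃ a : Fin (d + 1) → ℂ, a = γ w := ⟨_, rfl⟩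
  have hN : Kd d * ‖a - ee d c₁‖ ≤ r := by rw [had]; exact hnear w (mem_ball_self hρ)
  obtain ⟨x, hxd⟩ : ∃ x : ℝ, x = ‖GG d γ n w‖ := ⟨_, rfl⟩
  obtain ⟨D, hDd⟩ : ∃ D : ℝ, D = ‖DD d γ n w‖ := ⟨_, rfl⟩
  rw [← hxd, ← hDd] at hDρ hκ
  rw [← hxd] at hx hrx
  rw [← hxd, ← hDd]
  have hx0 : 0 < x := by rw [hxd]; exact norm_pos_iff.2 hw0
  have hD00 : 0 < D := by rw [hDd]; exact norm_pos_iff.2 hD0
  have hx1 : x ≤ 1 := by
    by_contra h
    push Not at h
    have := one_lt_pow₀ h (by omega : d ≠ 0)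
    linarith
  have hxp : 0 < x ^ (d - 1) := by positivity
  have hc2 : ‖c₁‖ ≤ 2 := hc.bd 0
  -- the derivative at the point
  obtain ⟨E, hEd⟩ : ∃ E : ℝ, E = ‖deriv (FF d a) (GG d γ n w)‖ := ⟨_, rfl⟩
  have hE : |E - d * x ^ (d - 1)| ≤ ε * x ^ (d - 1) := by
    have h1 := dFF_sub d hd a c₁ (GG d γ n w) (by rw [← hxd]; exact hx1)
    have h2 := abs_norm_sub_norm_le (deriv (FF d a) (GG d γ n w)) (d * (GG d γ n w) ^ (d - 1))
    rw [norm_mul, norm_pow, Complex.norm_natCast, ← hEd, ← hxd] at h2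
    exact h2.trans (h1.trans (hN.trans hrx))
  have hE1 : E ≤ (d + ε) * x ^ (d - 1) := by
    have := (abs_le.1 hE).2
    linarith
  have hE2 : (d - ε) * x ^ (d - 1) ≤ E := by
    have := (abs_le.1 hE).1
    linarith
  have hE0 : 0 ≤ E := by rw [hEd]; exact norm_nonneg _
  -- the point v
  obtain ⟨v, hvd⟩ : ∃ v : ℂ, v = (FF d a)^[n + 1] w := ⟨_, rfl⟩
  have hv : v ∈ ball c₁ (2 * s) := by
    rw [mem_ball, dist_eq_norm, hvd, Function.iterate_succ_apply']
    have h0 : (FF d a)^[n] w = GG d γ n w := by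
      unfold GG
      rw [← had]
    rw [h0]
    have h1 := FF_sub d hd a c₁ (GG d γ n w) (by rw [← hxd]; exact hx1)
    calc ‖FF d a (GG d γ n w) - c₁‖ = ‖(FF d a (GG d γ n w) - ((GG d γ n w) ^ d + c₁)) +
            (GG d γ n w) ^ d‖ := by congr 1; ring
      _ ≤ ‖FF d a (GG d γ n w) - ((GG d γ n w) ^ d + c₁)‖ + ‖(GG d γ n w) ^ d‖ := norm_add_le _ _
      _ ≤ r + x ^ d := by
          rw [norm_pow, ← hxd]
          exact add_le_add (h1.trans hN) le_rfl
      _ < 2 * s := by linarith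
  have hpass := fun j (hj : j ≤ k) => hPC.pass c₁ hc a s k hs (hN.trans hrs) hk v hv j hj
  have hfar := hPC.far c₁ hc s k hs hk
  have hGv : ∀ i, GG d γ (n + 1 + i) w = (FF d a)^[i] v := by
    intro i
    unfold GG
    rw [← had, hvd, add_comm (n + 1) i, Function.iterate_add_apply]
  have hDv : ∀ i, ‖DD d γ (n + 1 + i) w‖ = ‖deriv ((FF d a)^[i]) v‖ * (E * D) := by
    intro i
    unfold DD
    rw [← had, add_comm (n + 1) i, iter_add, norm_mul, ← hvd]
    congr 1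
    rw [add_comm n 1, iter_add, Function.iterate_one, norm_mul, hEd, hDd]
    unfold GG DD
    rw [← had]
  have hP := hc.Pd_pos
  have hxx : x ^ (d - 1) * x = x ^ d := by
    rw [← pow_succ]
    congr 1
    omega
  have hED : E ≤ 3 / 2 * d * x ^ (d - 1) := by
    refine hE1.trans (mul_le_mul_of_nonneg_right ?_ hxp.le)
    linarith
  have hED2 : 3 / 2 * x ^ (d - 1) ≤ E := by
    refine le_trans (mul_le_mul_of_nonneg_right ?_ hxp.le) hE2
    linarith
  -- upper bound for the derivatives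
  have hup : ∀ i ≤ k, ‖DD d γ (n + 1 + i) w‖ * ρ ≤ 3 * d * ε * (s * Pd d c₁ i) := by
    intro i hi
    obtain ⟨-, -, h1, -⟩ := hpass i hi
    have hPi := hP i
    rw [hDv]
    calc ‖deriv ((FF d a)^[i]) v‖ * (E * D) * ρ
        ≤ (2 * Pd d c₁ i) * (3 / 2 * d * x ^ (d - 1) * D) * ρ := by gcongr
      _ = 2 * Pd d c₁ i * (3 / 2 * d * x ^ (d - 1)) * (D * ρ) := by ring
      _ ≤ 2 * Pd d c₁ i * (3 / 2 * d * x ^ (d - 1)) * (ε * x) := by gcongr
      _ = 3 * d * ε * (x ^ (d - 1) * x * Pd d c₁ i) := by ring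
      _ = 3 * d * ε * (x ^ d * Pd d c₁ i) := by rw [hxx]
      _ ≤ 3 * d * ε * (s * Pd d c₁ i) := by gcongr
  have hlow : ∀ i ≤ k, Pd d c₁ i * (x ^ (d - 1) * D) ≤ ‖DD d γ (n + 1 + i) w‖ := by
    intro i hi
    obtain ⟨-, h1, -, -⟩ := hpass i hi
    have hPi := hP i
    rw [hDv]
    calc Pd d c₁ i * (x ^ (d - 1) * D) = 2 / 3 * Pd d c₁ i * (3 / 2 * x ^ (d - 1) * D) := by ring
      _ ≤ ‖deriv ((FF d a)^[i]) v‖ * (E * D) := by gcongr
  have hB0 : ∀ j, 1 ≤ B * θ ^ j := fun j => by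
    exact one_le_mul_of_one_le_of_one_le hB1 (one_le_pow₀ hθ.le)
  have hzG : ∀ l < k, 3 / 4 * ‖zz d c₁ l‖ ≤ ‖(FF d a)^[l] v‖ ∧
      ‖(FF d a)^[l] v‖ ≤ 5 / 4 * ‖zz d c₁ l‖ := by
    intro l hl
    obtain ⟨-, -, -, h1⟩ := hpass l hl.le
    have h2 := h1 hl
    constructor
    · have h4 : ‖zz d c₁ l‖ ≤ ‖(FF d a)^[l] v‖ + ‖(FF d a)^[l] v - zz d c₁ l‖ := by
        calc ‖zz d c₁ l‖ = ‖(FF d a)^[l] v - ((FF d a)^[l] v - zz d c₁ l)‖ := by congr 1; ring
          _ ≤ _ := norm_sub_le _ _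
      linarith
    · have h4 : ‖(FF d a)^[l] v‖ ≤ ‖zz d c₁ l‖ + ‖(FF d a)^[l] v - zz d c₁ l‖ := by
        calc ‖(FF d a)^[l] v‖ = ‖zz d c₁ l + ((FF d a)^[l] v - zz d c₁ l)‖ := by congr 1; ring
          _ ≤ _ := norm_add_le _ _
      linarith
  refine ⟨?_, ?_, ?_⟩
  · refine hpush d c₁ γ w ρ κ r n (n + 1 + k) (fun j => 4 * d * θ * ε * (1 / θ) ^ (j - n))
      (fun j => 2 * C₁ * ε * (1 / lam) ^ (j - n)) hd hρ hc2 hγ hslow hnear (hrs.trans hs1)
      (by omega) hstart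
      (fun j => by positivity) (fun j => by positivity) ?_ ?_ ?_ ?_ ?_
    · intro j hj1 hj2
      obtain ⟨i, rfl⟩ : ∃ i, j = n + i := ⟨j - n, by omega⟩
      show ‖DD d γ (n + i) w‖ * ρ ≤ 4 * d * θ * ε * (1 / θ) ^ (n + i - n) * ‖GG d γ (n + i) w‖
      rw [Nat.add_sub_cancel_left]
      rcases Nat.eq_zero_or_pos i with rfl | hi
      · rw [add_zero, pow_zero, mul_one, ← hDd, ← hxd]
        refine hDρ.trans ?_
        have h1 : 1 ≤ 4 * d * θ := by
          have h2 : 1 ≤ (d : ℝ) * θ := one_le_mul_of_one_le_of_one_le (by linarith) hθ.le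
          linarith
        calc ε * x = 1 * (ε * x) := by ring
          _ ≤ 4 * d * θ * (ε * x) := mul_le_mul_of_nonneg_right h1 (by positivity)
          _ = _ := by ring
      · obtain ⟨l, rfl⟩ : ∃ l, i = l + 1 := ⟨i - 1, by omega⟩
        have hl : l < k := by omega
        have e1 : n + (l + 1) = n + 1 + l := by ring
        rw [e1, hGv]
        refine (hup l hl.le).trans ?_
        have h3 := (hzG l hl).1
        have h4 := hk l hl
        have hPl := hP l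
        have h5 : θ ^ l * (s * Pd d c₁ l) ≤ 4 / 3 * ‖(FF d a)^[l] v‖ := by
          calc θ ^ l * (s * Pd d c₁ l) ≤ B * (θ ^ l * (s * Pd d c₁ l)) :=
                le_mul_of_one_le_left (by positivity) hB1
            _ = B * θ ^ l * s * Pd d c₁ l := by ring
            _ ≤ ‖zz d c₁ l‖ := h4
            _ ≤ _ := by linarith
        have h6 : s * Pd d c₁ l ≤ 4 / 3 * ((1 / θ) ^ l * ‖(FF d a)^[l] v‖) := by
          have h7 : (1 / θ) ^ l * θ ^ l = 1 := by
            rw [← mul_pow, one_div, inv_mul_cancel₀ hθ0.ne', one_pow]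
          calc s * Pd d c₁ l = (1 / θ) ^ l * θ ^ l * (s * Pd d c₁ l) := by rw [h7, one_mul]
            _ = (1 / θ) ^ l * (θ ^ l * (s * Pd d c₁ l)) := by ring
            _ ≤ (1 / θ) ^ l * (4 / 3 * ‖(FF d a)^[l] v‖) := by gcongr
            _ = _ := by ring
        have h8 : θ * (1 / θ) ^ (l + 1) = (1 / θ) ^ l := by
          rw [pow_succ]
          field_simp
        calc 3 * d * ε * (s * Pd d c₁ l) ≤ 3 * d * ε * (4 / 3 * ((1 / θ) ^ l * ‖(FF d a)^[l] v‖)) := by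
              gcongr
          _ = (4 * (d * ε)) * ((1 / θ) ^ l * ‖(FF d a)^[l] v‖) := by ring
          _ = (4 * (d * ε)) * (θ * (1 / θ) ^ (l + 1) * ‖(FF d a)^[l] v‖) := by rw [h8]
          _ = 4 * d * θ * ε * (1 / θ) ^ (l + 1) * ‖(FF d a)^[l] v‖ := by ring
    · intro j hj1 hj2
      obtain ⟨i, rfl⟩ : ∃ i, j = n + i := ⟨j - n, by omega⟩
      show κ ≤ 2 * C₁ * ε * (1 / lam) ^ (n + i - n) * ‖DD d γ (n + i + 1) w‖
      have e1 : n + i + 1 = n + 1 + i := by ring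
      rw [Nat.add_sub_cancel_left, e1]
      refine hκ.trans ?_
      have h1 := hlow i (by omega)
      have h2 := hc.exp i
      have hPi := hP i
      have h3 : 1 ≤ C₁ * (1 / lam) ^ i * Pd d c₁ i := by
        have h7 : (1 / lam) ^ i * lam ^ i = 1 := by
          rw [← mul_pow, one_div, inv_mul_cancel₀ hl0.ne', one_pow]
        calc 1 = (1 / lam) ^ i * lam ^ i := h7.symm
          _ ≤ (1 / lam) ^ i * (C₁ * Pd d c₁ i) := by gcongr
          _ = _ := by ring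
      have h4 : 0 ≤ ε * (x ^ (d - 1) * D) := by positivity
      calc ε * (x ^ (d - 1) * D) ≤ (C₁ * (1 / lam) ^ i * Pd d c₁ i) * (ε * (x ^ (d - 1) * D)) :=
            le_mul_of_one_le_left h4 h3
        _ = C₁ * ε * (1 / lam) ^ i * (Pd d c₁ i * (x ^ (d - 1) * D)) := by ring
        _ ≤ C₁ * ε * (1 / lam) ^ i * ‖DD d γ (n + 1 + i) w‖ := by gcongr
        _ ≤ 2 * (C₁ * ε * (1 / lam) ^ i * ‖DD d γ (n + 1 + i) w‖) := by
            have : 0 ≤ C₁ * ε * (1 / lam) ^ i * ‖DD d γ (n + 1 + i) w‖ := by positivity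
            linarith
        _ = _ := by ring
    · intro j hj1 hj2
      obtain ⟨i, rfl⟩ : ∃ i, j = n + i := ⟨j - n, by omega⟩
      rcases Nat.eq_zero_or_pos i with rfl | hi
      · rw [add_zero, ← hxd]
        have h1 : ε * x ^ (d - 1) ≤ 1 / 4 * x ^ (d - 1) := mul_le_mul_of_nonneg_right hε4 hxp.le
        linarith
      · obtain ⟨l, rfl⟩ : ∃ l, i = l + 1 := ⟨i - 1, by omega⟩
        have hl : l < k := by omega
        have e1 : n + (l + 1) = n + 1 + l := by ring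
        rw [e1, hGv]
        have h1 := hfar l hl
        have h2 := (hzG l hl).1
        have h3 : (1 : ℝ) ≤ (3 / 4) ^ (d - 1) * 2 ^ d := by
          have e2 : (2 : ℝ) ^ d = 2 ^ (d - 1) * 2 := by
            rw [← pow_succ]
            congr 1
            omega
          rw [e2, ← mul_assoc, ← mul_pow]
          have h4 : (1 : ℝ) ≤ (3 / 4 * 2) ^ (d - 1) := one_le_pow₀ (by norm_num)
          linarith
        calc 4 * r ≤ 4 * s := by linarith
          _ = 1 * (4 * s) := by ring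
          _ ≤ ((3 / 4) ^ (d - 1) * 2 ^ d) * (4 * s) := mul_le_mul_of_nonneg_right h3 (by positivity)
          _ = (3 / 4) ^ (d - 1) * (4 * 2 ^ d * s) := by ring
          _ ≤ (3 / 4) ^ (d - 1) * ‖zz d c₁ l‖ ^ (d - 1) := by gcongr
          _ = (3 / 4 * ‖zz d c₁ l‖) ^ (d - 1) := by rw [mul_pow]
          _ ≤ _ := by gcongr
    · intro j hj1 hj2
      obtain ⟨i, rfl⟩ : ∃ i, j = n + i := ⟨j - n, by omega⟩
      rcases Nat.eq_zero_or_pos i with rfl | hi
      · rw [add_zero, ← hxd]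
        linarith
      · obtain ⟨l, rfl⟩ : ∃ l, i = l + 1 := ⟨i - 1, by omega⟩
        have hl : l < k := by omega
        have e1 : n + (l + 1) = n + 1 + l := by ring
        rw [e1, hGv]
        have h1 := (hzG l hl).2
        have h2 := hc.bd l
        linarith
    · have e1 : ∑ j ∈ Finset.Ico n (n + 1 + k), (16 * d * (4 * d * θ * ε * (1 / θ) ^ (j - n)) +
          4 * (2 * C₁ * ε * (1 / lam) ^ (j - n))) = ∑ i ∈ Finset.range (k + 1),
          (16 * d * (4 * d * θ * ε * (1 / θ) ^ i) + 4 * (2 * C₁ * ε * (1 / lam) ^ i)) := by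
        rw [Finset.sum_Ico_eq_sum_range, show n + 1 + k - n = k + 1 by omega]
        refine Finset.sum_congr rfl fun i _ => ?_
        rw [Nat.add_sub_cancel_left]
      refine le_trans (le_of_eq e1) ?_
      have h1 := geom_part hiθ hiθ1 (k + 1)
      have h2 := geom_part hil hil1 (k + 1)
      rw [← hSθ] at h1
      rw [← hSl] at h2
      have e2 : ∑ i ∈ Finset.range (k + 1),
          (16 * d * (4 * d * θ * ε * (1 / θ) ^ i) + 4 * (2 * C₁ * ε * (1 / lam) ^ i)) =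
          ε * (64 * d ^ 2 * θ * ∑ i ∈ Finset.range (k + 1), (1 / θ) ^ i +
            8 * C₁ * ∑ i ∈ Finset.range (k + 1), (1 / lam) ^ i) := by
        rw [Finset.sum_add_distrib, mul_add, Finset.mul_sum, Finset.mul_sum, Finset.mul_sum,
          Finset.mul_sum]
        congr 1
        · refine Finset.sum_congr rfl fun i _ => by ring
        · refine Finset.sum_congr rfl fun i _ => by ring
      rw [e2]
      refine le_trans ?_ hε1
      rw [hK]
      gcongr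
  · refine le_trans (le_of_eq ?_) (hlow k le_rfl)
    ring
  · refine (hup k le_rfl).trans ?_
    have h1 : s * Pd d c₁ k ≤ 4 * d := by
      rcases Nat.eq_zero_or_pos k with rfl | hk0
      · rw [Pd_zero]
        linarith
      · obtain ⟨j, rfl⟩ : ∃ j, k = j + 1 := ⟨k - 1, by omega⟩
        have h2 := hk j (by omega)
        have hPj := hP j
        have h3 : s * Pd d c₁ j ≤ ‖zz d c₁ j‖ := by
          calc s * Pd d c₁ j ≤ B * θ ^ j * (s * Pd d c₁ j) :=
                le_mul_of_one_le_left (by positivity) (hB0 j)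
            _ = B * θ ^ j * s * Pd d c₁ j := by ring
            _ ≤ _ := h2
        have h4 : ‖zz d c₁ j‖ ^ d ≤ 4 := by
          have h5 : zz d c₁ j ^ d = zz d c₁ (j + 1) - zz d c₁ 0 := by
            rw [zz_succ, zz_zero]
            ring
          rw [← norm_pow, h5]
          refine (norm_sub_le _ _).trans ?_
          linarith [hc.bd (j + 1), hc.bd 0]
        have h5 : ‖zz d c₁ j‖ ^ (d - 1) * ‖zz d c₁ j‖ = ‖zz d c₁ j‖ ^ d := by
          rw [← pow_succ]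
          congr 1
          omega
        rw [Pd_succ]
        calc s * (d * ‖zz d c₁ j‖ ^ (d - 1) * Pd d c₁ j)
            = d * ‖zz d c₁ j‖ ^ (d - 1) * (s * Pd d c₁ j) := by ring
          _ ≤ d * ‖zz d c₁ j‖ ^ (d - 1) * ‖zz d c₁ j‖ := by gcongr
          _ = d * (‖zz d c₁ j‖ ^ (d - 1) * ‖zz d c₁ j‖) := by ring
          _ = d * ‖zz d c₁ j‖ ^ d := by rw [h5]
          _ ≤ d * 4 := by gcongr
          _ = _ := by ring
    calc 3 * d * ε * (s * Pd d c₁ k) ≤ 3 * d * ε * (4 * d) := by gcongr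
      _ = ε * (12 * d ^ 2) := by ring
      _ ≤ 1 := hε2
      _ ≤ 5 := by norm_num

end Pool.Agent.Y43.GA
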